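import Pool.Agent.Helper13.TR.StA

/-!
# Project TR, module MV: Mayer-Vietoris by hand
-/

set_option autoImplicit false

namespace Pool.Agent.Helper69.TR

open Set Topology Pool.Agent.Helper13.TR

section

variable {X : Type} [TopologicalSpace X]

private theorem cin_mono_MV {S T : Set X} (h : S ⊆ T) (n : ℕ) : cin S n ≤ cin T n := by
  apply Finsupp.supported_mono
  intro σ hσ
  exact Set.Subset.trans hσ h

private theorem cin_inter_MV {S T : Set X} {n : ℕ} {c : Ch X n} (h₁ : c ∈ cin S n)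
    (h₂ : c ∈ cin T n) : c ∈ cin (S ∩ T) n := by
  have h3 := (Finsupp.mem_supported ℤ c).1 h₁
  have h4 := (Finsupp.mem_supported ℤ c).1 h₂
  refine (Finsupp.mem_supported ℤ c).2 ?_
  intro σ hσ
  exact Set.subset_inter (h3 hσ) (h4 hσ)

private theorem bd_cin_MV {S : Set X} {n : ℕ} {c : Ch X (n + 1)} (h : c ∈ cin S (n + 1)) :
    bd n c ∈ cin S n := by
  have h1 := (Finsupp.mem_supported ℤ c).1 h
  rw [bd, Finsupp.linearCombination_apply, Finsupp.sum]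
  apply Submodule.sum_mem
  intro σ hσ
  apply Submodule.smul_mem
  apply Submodule.sum_mem
  intro i _
  apply Submodule.smul_mem
  apply Finsupp.single_mem_supported
  have h2 : range σ ⊆ S := h1 hσ
  rintro x ⟨t, rfl⟩
  exact h2 ⟨face n i t, rfl⟩

private theorem nul_iff_MV (B : Set X) (n : ℕ) (c : Ch X n) :
    c ∈ Nul B n ↔ ∃ b : Ch X (n + 1), c - bd n b ∈ cin Bᶜ n := by
  constructor
  · intro h
    obtain ⟨y, hy, z, ⟨b, rfl⟩, rfl⟩ := Submodule.mem_sup.1 h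
    refine ⟨b, ?_⟩
    rw [add_sub_cancel_right]
    exact hy
  · rintro ⟨b, hb⟩
    exact Submodule.mem_sup.2 ⟨_, hb, bd n b, ⟨b, rfl⟩, by rw [sub_add_cancel]⟩

private theorem part1_MV (hSM : StSM) (hSDA : StSDA) (A₁ A₂ : Set X) (h1 : IsClosed A₁)
    (h2 : IsClosed A₂) (k : ℕ) (τ : Ch X (k + 1)) (σ : Ch X k) (h : MVR A₁ A₂ k τ σ)
    (hτ : τ ∈ Nul (A₁ ∩ A₂) (k + 1)) : σ ∈ Nul (A₁ ∪ A₂) k := by
  obtain ⟨b₁, b₂, hb, hr1, hr2⟩ := h
  obtain ⟨e, he⟩ := (nul_iff_MV _ _ _).1 hτ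
  have hdd := (hSDA X).1
  obtain ⟨w, hw⟩ : ∃ w, w = τ - bd (k + 1) e := ⟨_, rfl⟩
  rw [← hw] at he
  have hbw : bd k w = (σ - bd k b₂) - (σ - bd k b₁) := by
    rw [hw, map_sub, hdd, ← hb, map_sub]
    abel
  rw [Set.compl_inter] at he
  have hmem : w ∈ BdIn (fun j => cin A₁ᶜ j ⊔ cin A₂ᶜ j) (k + 1) := by
    change bd k w ∈ cin A₁ᶜ k ⊔ cin A₂ᶜ k
    rw [hbw]
    exact Submodule.sub_mem _ (Submodule.mem_sup_right hr2) (Submodule.mem_sup_left hr1)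
  obtain ⟨w₁, hw1, w₂, hw2, e', _, he'⟩ :=
    hSM X A₁ᶜ A₂ᶜ h1.isOpen_compl h2.isOpen_compl (k + 1) w he hmem
  refine (nul_iff_MV _ _ _).2 ⟨b₁ - w₁, ?_⟩
  rw [Set.compl_union]
  apply cin_inter_MV
  · have h3 : σ - bd k (b₁ - w₁) = (σ - bd k b₁) + bd k w₁ := by
      rw [map_sub]
      abel
    rw [h3]
    exact Submodule.add_mem _ hr1 (bd_cin_MV hw1)
  · have h3 : bd k b₁ = bd k b₂ + bd k w₁ + bd k w₂ := by
      have h4 : b₁ = b₂ + w₁ + w₂ + bd (k + 1) (e' + e) := by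
        have h5 : b₁ = b₂ + τ := by
          rw [← hb]
          abel
        have h6 : τ = w + bd (k + 1) e := by
          rw [hw, sub_add_cancel]
        rw [h5, h6, he', map_add]
        abel
      rw [h4, map_add, map_add, map_add, hdd, add_zero]
    have h7 : σ - bd k (b₁ - w₁) = (σ - bd k b₂) - bd k w₂ := by
      rw [map_sub, h3]
      abel
    rw [h7]
    exact Submodule.sub_mem _ hr2 (bd_cin_MV hw2)

private theorem part2_MV (hSM : StSM) (hSDA : StSDA) (A₁ A₂ : Set X) (h1 : IsClosed A₁)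
    (h2 : IsClosed A₂) (k : ℕ) (τ : Ch X (k + 1)) (hτ : τ ∈ Cyc (A₁ ∩ A₂) (k + 1)) :
    ∃ τ' σ, τ - τ' ∈ Nul (A₁ ∩ A₂) (k + 1) ∧ σ ∈ Cyc (A₁ ∪ A₂) k ∧ MVR A₁ A₂ k τ' σ := by
  have hdd := (hSDA X).1
  have hc : bd k τ ∈ cin (A₁ᶜ ∪ A₂ᶜ) k := by
    rw [← Set.compl_inter]
    exact hτ
  have hmem : bd k τ ∈ BdIn (fun j => cin A₁ᶜ j ⊔ cin A₂ᶜ j) k := by
    cases k with
    | zero => exact Submodule.mem_top
    | succ j =>
      change bd j (bd (j + 1) τ) ∈ cin A₁ᶜ j ⊔ cin A₂ᶜ j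
      rw [hdd]
      exact Submodule.zero_mem _
  obtain ⟨u₁, hu1, u₂, hu2, e, he, hbe⟩ :=
    hSM X A₁ᶜ A₂ᶜ h1.isOpen_compl h2.isOpen_compl k (bd k τ) hc hmem
  have hbt : bd k (τ - e) = u₁ + u₂ := by
    rw [map_sub, hbe]
    abel
  refine ⟨τ - e, u₂, ?_, ?_, τ - e, 0, sub_zero _, ?_, ?_⟩
  · refine (nul_iff_MV _ _ _).2 ⟨0, ?_⟩
    rw [map_zero, sub_zero, sub_sub_cancel, Set.compl_inter]
    exact he
  · cases k with
    | zero => exact Submodule.mem_top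
    | succ j =>
      change bd j u₂ ∈ cin (A₁ ∪ A₂)ᶜ j
      rw [Set.compl_union]
      apply cin_inter_MV
      · have h3 : bd j u₂ = - bd j u₁ := by
          have h4 := hdd j (τ - e)
          rw [hbt, map_add] at h4
          exact (neg_eq_of_add_eq_zero_right h4).symm
        rw [h3]
        exact Submodule.neg_mem _ (bd_cin_MV hu1)
      · exact bd_cin_MV hu2
  · have h3 : u₂ - bd k (τ - e) = - u₁ := by
      rw [hbt]
      abel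
    rw [h3]
    exact Submodule.neg_mem _ hu1
  · rw [map_zero, sub_zero]
    exact hu2

private theorem part3_MV (A₁ A₂ : Set X) (k : ℕ) (σ : Ch X k) (h1 : σ ∈ Nul A₁ k)
    (h2 : σ ∈ Nul A₂ k) : ∃ τ ∈ Cyc (A₁ ∩ A₂) (k + 1), MVR A₁ A₂ k τ σ := by
  obtain ⟨b₁, hb1⟩ := (nul_iff_MV _ _ _).1 h1
  obtain ⟨b₂, hb2⟩ := (nul_iff_MV _ _ _).1 h2
  refine ⟨b₁ - b₂, ?_, b₁, b₂, rfl, hb1, hb2⟩
  change bd k (b₁ - b₂) ∈ cin (A₁ ∩ A₂)ᶜ k
  have h3 : bd k (b₁ - b₂) = (σ - bd k b₂) - (σ - bd k b₁) := by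
    rw [map_sub]
    abel
  rw [h3, Set.compl_inter]
  exact Submodule.sub_mem _ (cin_mono_MV Set.subset_union_right k hb2)
    (cin_mono_MV Set.subset_union_left k hb1)

private theorem part4_MV (A₁ A₂ : Set X) (k : ℕ) (m : ℤ) (τ : Ch X (k + 1)) (σ : Ch X k)
    (τ' : Ch X (k + 1)) (σ' : Ch X k) (h : MVR A₁ A₂ k τ σ) (h' : MVR A₁ A₂ k τ' σ') :
    MVR A₁ A₂ k (τ - m • τ') (σ - m • σ') := by
  obtain ⟨b₁, b₂, hb, hr1, hr2⟩ := h
  obtain ⟨b₁', b₂', hb', hr1', hr2'⟩ := h'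
  refine ⟨b₁ - m • b₁', b₂ - m • b₂', ?_, ?_, ?_⟩
  · rw [← hb, ← hb', smul_sub]
    abel
  · have h3 : σ - m • σ' - bd k (b₁ - m • b₁') = (σ - bd k b₁) - m • (σ' - bd k b₁') := by
      rw [map_sub, map_smul, smul_sub]
      abel
    rw [h3]
    exact Submodule.sub_mem _ hr1 (Submodule.smul_mem _ _ hr1')
  · have h3 : σ - m • σ' - bd k (b₂ - m • b₂') = (σ - bd k b₂) - m • (σ' - bd k b₂') := by
      rw [map_sub, map_smul, smul_sub]
      abel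
    rw [h3]
    exact Submodule.sub_mem _ hr2 (Submodule.smul_mem _ _ hr2')

end

/-- MV: Mayer-Vietoris in the form we need. -/
theorem hMV (hSM : StSM) (hSDA : StSDA) : StMV := by
  intro X _ A₁ A₂ h1 h2 k
  refine ⟨fun τ σ h hτ => part1_MV hSM hSDA A₁ A₂ h1 h2 k τ σ h hτ,
    fun τ hτ => part2_MV hSM hSDA A₁ A₂ h1 h2 k τ hτ,
    fun σ hσ hσ' => part3_MV A₁ A₂ k σ hσ hσ',
    fun m τ σ τ' σ' h h' => part4_MV A₁ A₂ k m τ σ τ' σ' h h', ?_⟩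
  intro hP σ hσ hσ'
  obtain ⟨τ, hτ, hM⟩ := part3_MV A₁ A₂ k σ hσ hσ'
  exact part1_MV hSM hSDA A₁ A₂ h1 h2 k τ σ hM (hP hτ)

end Pool.Agent.Helper69.TR
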